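import Pool.Agent.Lib.MP_81e58e_co.FullAsm
import Pool.Agent.Lib.MP_81e58e_co.G4Final

/-!
# Every rational in [0,1) is the codegree Turan density of a single k-graph, for every k at least 3

The definitions (`KGraph`, `KGraph.codeg`, `KGraph.minCodeg`, `KGraph.Contains`, `coex`,
`HasCodegDensity`) are in `Pool/Agent/Lib/MP_81e58e_co/Defs.lean`.
-/

namespace Pool.Agent.Results.MP_81e58e_co.AllRationals

open CodegDens

/-- For every uniformity `k ≥ 3` and every rational `q` with `0 ≤ q < 1` there is one single
`k`-graph `F` (on finitely many vertices, with at least one edge) whose codegree Turan density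
exists and equals `q`. -/
theorem result : ∀ k : ℕ, 3 ≤ k → ∀ q : ℚ, 0 ≤ q → q < 1 →
    ∃ (m : ℕ) (F : KGraph k (Fin m)), F.edges.Nonempty ∧ HasCodegDensity F (q : ℝ) :=
  all_rationals_of fun p q h => by
    obtain ⟨C, hC, P, h1, h2⟩ := reachG p q h
    exact ⟨C, hC, P, h1, irrLab_of_irrG P _ h2⟩

end Pool.Agent.Results.MP_81e58e_co.AllRationals
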